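import Pool.Agent.helper62.RS.SpecG

/-!
# GKB (project RS, MP_07c750_an): the bound for the kernel
-/

set_option autoImplicit false

open scoped MatrixGroups ContDiff Topology UpperHalfPlane
open UpperHalfPlane MeasureTheory Filter Set

namespace Pool.Agent.RS

/-- the number of elements of `Γ` which move `w` to a point at distance at most `2 ρ` from `w'` is bounded -/
theorem GKB_count (Γ : Subgroup SL(2, ℝ)) (ρ : ℝ) (hΓ : QU.SurfaceGroup Γ) :
    ∃ n : ℕ, ∀ w w' : ℍ, ∃ T : Finset Γ, T.card ≤ n ∧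
      ∀ γ : Γ, dist (γ • w) w' ≤ 2 * ρ → γ ∈ T := by
  classical
  obtain ⟨K₀, hK₀, hco⟩ := hΓ.cocompact
  obtain ⟨R₀, hR₀⟩ := hK₀.isBounded.subset_closedBall (I : ℍ)
  have hK : IsCompact (Metric.closedBall (I : ℍ) (R₀ + |2 * ρ|)) := isCompact_closedBall _ _
  have hD := hΓ.discrete _ hK
  refine ⟨hD.toFinset.card, fun w w' => ?_⟩
  obtain ⟨γ₀, hγ₀⟩ := hco w'
  have key : ∀ γ : Γ, dist (γ • w) w' ≤ 2 * ρ →
      γ₀ • (γ • w) ∈ Metric.closedBall (I : ℍ) (R₀ + |2 * ρ|) := by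
    intro γ hγ
    rw [Metric.mem_closedBall]
    have h1 : dist (γ₀ • (γ • w)) (γ₀ • w') ≤ |2 * ρ| := by
      have h2 : dist (γ₀ • (γ • w)) (γ₀ • w') = dist (γ • w) w' := by
        rw [Subgroup.smul_def, Subgroup.smul_def γ₀ w', dist_smul]
      rw [h2]
      exact hγ.trans (le_abs_self _)
    have h3 : dist (γ₀ • w') (I : ℍ) ≤ R₀ := hR₀ hγ₀
    linarith [dist_triangle (γ₀ • (γ • w)) (γ₀ • w') (I : ℍ)]
  by_cases hT : ∃ γ₁ : Γ, dist (γ₁ • w) w' ≤ 2 * ρ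
  · obtain ⟨γ₁, hγ₁⟩ := hT
    refine ⟨hD.toFinset.image (fun δ => γ₀⁻¹ * δ * γ₀ * γ₁), Finset.card_image_le, ?_⟩
    intro γ hγ
    rw [Finset.mem_image]
    refine ⟨γ₀ * γ * γ₁⁻¹ * γ₀⁻¹, ?_, by group⟩
    rw [Set.Finite.mem_toFinset]
    refine ⟨γ₀ • (γ₁ • w), key γ₁ hγ₁, ?_⟩
    have h1 : (γ₀ * γ * γ₁⁻¹ * γ₀⁻¹) • (γ₀ • (γ₁ • w)) = γ₀ • (γ • w) := by
      simp only [smul_smul]
      congr 1
      group
    rw [h1]
    exact key γ hγ
  · refine ⟨∅, by simp, fun γ hγ => ?_⟩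
    exact absurd ⟨γ, hγ⟩ hT

theorem GKB_cont {X Y E : Type*} [TopologicalSpace X] [TopologicalSpace Y] [TopologicalSpace E] (q : X → Y → E)
    (h : Continuous (fun p : X × Y => q p.1 p.2)) (x : X) : Continuous (q x) :=
  h.comp (continuous_const.prodMk continuous_id)

theorem GKB (_hGLC : GLC_stmt) (hGPE : GPE_stmt) : GKB_stmt := by
  intro Γ F ρ hΓ hF
  obtain ⟨n, hn⟩ := GKB_count Γ ρ hΓ
  refine ⟨n, ?_⟩
  intro f B hf hfc hsupp hB g g'
  have hB0 : 0 ≤ B := le_trans (norm_nonneg _) (hB 1)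
  obtain ⟨-, hcont, hinv, -, hunf, -, -⟩ := hGPE Γ F f hΓ hF hf hfc
  have hInv : InvC Γ (per Γ f g') := by
    refine ⟨?_, fun γ z => hinv γ g' z⟩
    exact GKB_cont _ hcont g'
  have h1 : kk Γ F f g g' = ∫ z : ℍ, f z * per Γ f g' (g • z) := hunf _ hInv g
  obtain ⟨T, hT, hTm⟩ := hn (g • I) (g' • I)
  have h2 : ∀ z : ℍ, f z * per Γ f g' (g • z) =
      ∑ γ ∈ T, f z * f ((g'⁻¹ * (γ : SL(2, ℝ)) * g) • z) := by
    intro z
    by_cases hz : f z = 0
    · simp [hz]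
    · have h3 : per Γ f g' (g • z) = ∑ γ ∈ T, f ((g'⁻¹ * (γ : SL(2, ℝ)) * g) • z) := by
        unfold per
        rw [finsum_eq_sum_of_support_subset]
        · refine Finset.sum_congr rfl fun γ _ => ?_
          rw [mul_smul, mul_smul]
        · intro γ hγ
          rw [Function.mem_support] at hγ
          rw [Finset.mem_coe]
          apply hTm
          have h4 := hsupp _ hγ
          have h5 := hsupp z hz
          have h6 : dist ((γ : SL(2, ℝ)) • (g • z)) (g' • I) ≤ ρ := by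
            have h7 : dist ((γ : SL(2, ℝ)) • (g • z)) (g' • I) =
                dist (g'⁻¹ • ((γ : SL(2, ℝ)) • (g • z))) (g'⁻¹ • (g' • I)) := (dist_smul _ _ _).symm
            rw [h7, inv_smul_smul]
            exact h4
          have h8 : dist ((γ : SL(2, ℝ)) • (g • I)) ((γ : SL(2, ℝ)) • (g • z)) ≤ ρ := by
            rw [dist_smul, dist_smul, dist_comm]
            exact h5
          have h9 := dist_triangle ((γ : SL(2, ℝ)) • (g • I)) ((γ : SL(2, ℝ)) • (g • z)) (g' • I)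
          rw [Subgroup.smul_def]
          linarith
      rw [h3, Finset.mul_sum]
  have hint : ∀ h : SL(2, ℝ), Integrable (fun z : ℍ => f z * f (h • z)) := by
    intro h
    refine Continuous.integrable_of_hasCompactSupport (hf.mul (hf.comp (continuous_const_smul h))) ?_
    exact hfc.mul_right
  rw [h1]
  have h10 : ∫ z : ℍ, f z * per Γ f g' (g • z) =
      ∑ γ ∈ T, ∫ z : ℍ, f z * f ((g'⁻¹ * (γ : SL(2, ℝ)) * g) • z) := by
    rw [← integral_finsetSum _ (fun γ _ => hint _)]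
    exact integral_congr_ae (Filter.Eventually.of_forall h2)
  rw [h10]
  calc ‖∑ γ ∈ T, ∫ z : ℍ, f z * f ((g'⁻¹ * (γ : SL(2, ℝ)) * g) • z)‖
      ≤ ∑ γ ∈ T, ‖∫ z : ℍ, f z * f ((g'⁻¹ * (γ : SL(2, ℝ)) * g) • z)‖ := norm_sum_le _ _
    _ ≤ ∑ _γ ∈ T, B := Finset.sum_le_sum fun γ _ => hB _
    _ = T.card * B := by rw [Finset.sum_const, nsmul_eq_mul]
    _ ≤ n * B := by
        refine mul_le_mul_of_nonneg_right ?_ hB0
        exact_mod_cast hT

end Pool.Agent.RS
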